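import Pool.Agent.SOR.Stmts1

/-!
# Row TIN of the squad SOR: `τ` modulo `R` does not depend on `g₁`, `g₂`
-/

open scoped BigOperators

noncomputable section

namespace Pool.Agent.SOR.H10

/-- the coboundary of a function is an exact cocycle -/
theorem cx_dl {H Y : Type} [Group H] (i : H →* Equiv.Perm Y) (f : Y → ℚ) : Cx i (dl i f) := by
  intro g h y
  simp only [dl, map_mul, Equiv.Perm.mul_apply]
  ring

/-- sums of exact cocycles -/
theorem cx_sub {H Y : Type} [Group H] (i : H →* Equiv.Perm Y) (u v : H → Y → ℚ) (hu : Cx i u)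
    (hv : Cx i v) : Cx i (fun w y => u w y - v w y) := by
  intro g h y
  have h1 := hu g h y
  have h2 := hv g h y
  simp only [h1, h2]
  ring

/-- Row TIN. -/
theorem tin (hI : IvfStmt) : TinStmt := by
  intro Y _ R i x₁ x₂ h₁ h₂ hB φ π g₁ g₂ g₁' g₂' hA hA' hg1 hg2
  obtain ⟨-, -, hadd, -, hdl, htr, -⟩ := hI Y i
  have hX : Cx i (tw φ π x₁) := (htr φ π hA.act hA.fixC x₁ x₁ hB.ex₁ hB.ex₁).1
  have hX2 : Cx i (tw φ π x₂) := (htr φ π hA.act hA.fixC x₂ x₂ hB.ex₂ hB.ex₂).1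
  have he' : Cx i (eps i x₂ φ π g₂') := by
    have h := cx_sub i _ _ (cx_sub i _ _ hX2 hB.ex₂) (cx_dl i g₂')
    exact h
  have hsum : eps i x₂ φ π g₂ =
      fun w y => eps i x₂ φ π g₂' w y + dl i (fun y => g₂' y - g₂ y) w y := by
    funext w y
    simp only [eps, dl]
    ring
  have h1 : Iv i (tw φ π x₁) (eps i x₂ φ π g₂) = Iv i (tw φ π x₁) (eps i x₂ φ π g₂') +
      Iv i (tw φ π x₁) (dl i (fun y => g₂' y - g₂ y)) := by
    rw [hsum]
    exact hadd _ _ _ hX he' (cx_dl i _)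
  have h2 := hdl (tw φ π x₁) (fun y => g₂' y - g₂ y) hX
  have hC : φ⁻¹ lC = lC := by
    have h : φ⁻¹ (φ lC) = lC := by simp
    rw [hA.fixC] at h
    exact h
  have hinv : ∀ y, h₁ (π⁻¹ y) = h₁ y := by
    intro y
    have h := hA.inv₁ (π⁻¹ y)
    rw [show π (π⁻¹ y) = y from by simp] at h
    exact h.symm
  have hkey : tau i x₁ x₂ h₁ h₂ φ π g₁' g₂' - tau i x₁ x₂ h₁ h₂ φ π g₁ g₂ =
      ∑ y, ((x₁ lC (π⁻¹ y) - h₁ (π⁻¹ y)) * (g₂' y - g₂ y) -
        (g₁' y - g₁ y) * (h₂ y - x₂ lC y)) := by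
    have e1 : Iv i (tw φ π x₁) (eps i x₂ φ π g₂') - Iv i (tw φ π x₁) (eps i x₂ φ π g₂) =
        ∑ y, x₁ lC (π⁻¹ y) * (g₂' y - g₂ y) := by
      rw [h1, h2]
      have e : ∀ y, tw φ π x₁ lC y = x₁ lC (π⁻¹ y) := by
        intro y
        simp only [tw, hC]
      simp only [e]
      ring
    have e2 : tau i x₁ x₂ h₁ h₂ φ π g₁' g₂' - tau i x₁ x₂ h₁ h₂ φ π g₁ g₂ =
        (Iv i (tw φ π x₁) (eps i x₂ φ π g₂') - Iv i (tw φ π x₁) (eps i x₂ φ π g₂)) -
        ∑ y, h₁ y * g₂' y - ∑ y, g₁' y * (h₂ y - x₂ lC y) + ∑ y, h₁ y * g₂ y +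
        ∑ y, g₁ y * (h₂ y - x₂ lC y) := by
      simp only [tau]
      ring
    rw [e2, e1, ← Finset.sum_sub_distrib, ← Finset.sum_sub_distrib, ← Finset.sum_add_distrib,
      ← Finset.sum_add_distrib]
    apply Finset.sum_congr rfl
    intro y _
    rw [hinv y]
    ring
  rw [hkey]
  apply Subring.sum_mem
  intro y _
  exact Subring.sub_mem R (Subring.mul_mem R (hB.xc₁ _) (hg2 y))
    (Subring.mul_mem R (hg1 y) (by
      have h := Subring.neg_mem R (hB.xc₂ y)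
      have e : -(x₂ lC y - h₂ y) = h₂ y - x₂ lC y := by ring
      rwa [e] at h))

end Pool.Agent.SOR.H10
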